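import Mathlib
import Pool.Agent.H56.U71Count

/-!
MP_71be06_co: for every `b ≥ 5` there are `ε > 0` and `N` such that `F_lam` is unimodal for every
partition `lam` with exactly `b` distinct parts, `lam_1 ≥ N` and `lam_b > (1 - ε) lam_1`.
-/

namespace Pool.Agent.Results.MP_71be06_co.NearRectangular

open Finset Pool.Agent.H56.U71

/-- A finite sequence `a 0, ..., a M` is unimodal. -/
def Unimodal (a : ℕ → ℕ) (M : ℕ) : Prop :=
  ∃ t ≤ M, (∀ i j, i ≤ j → j ≤ t → a i ≤ a j) ∧ (∀ i j, t ≤ i → i ≤ j → j ≤ M → a j ≤ a i)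

lemma unimodal_of (a : ℕ → ℕ) (M K1 K2 : ℕ) (h1 : ∀ n < K1, a n ≤ a (n + 1))
    (h2 : ∀ n, K1 ≤ n + 1 → n + 1 < K2 → (a (n + 2) : ℤ) - a (n + 1) ≤ a (n + 1) - a n)
    (h3 : ∀ n, K2 ≤ n + 1 → a (n + 1) ≤ a n) : Unimodal a M := by
  classical
  by_cases hex : ∃ n, a (n + 1) < a n
  · set t := Nat.find hex with ht
    have hts : a (t + 1) < a t := Nat.find_spec hex
    have htl : ∀ n < t, a n ≤ a (n + 1) := fun n hn => not_lt.mp (Nat.find_min hex hn)
    have hK1 : K1 ≤ t := by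
      by_contra hcon
      have := h1 t (by omega)
      omega
    have hdec : ∀ n, t ≤ n → n + 1 ≤ K2 → a (n + 1) < a n := by
      intro n hn
      induction n, hn using Nat.le_induction with
      | base => intro _; exact hts
      | succ n hn ih =>
        intro h
        have e1 := ih (by omega)
        have e2 := h2 n (by omega) (by omega)
        show a (n + 2) < a (n + 1)
        omega
    have hdec' : ∀ n, t ≤ n → a (n + 1) ≤ a n := by
      intro n hn
      rcases le_or_gt (n + 1) K2 with h | h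
      · exact (hdec n hn h).le
      · exact h3 n h.le
    have up : ∀ i j, i ≤ j → j ≤ t → a i ≤ a j := by
      intro i j hij
      induction j, hij using Nat.le_induction with
      | base => intro _; exact le_rfl
      | succ j _ ih => intro h; exact (ih (by omega)).trans (htl j (by omega))
    have down : ∀ i j, t ≤ i → i ≤ j → a j ≤ a i := by
      intro i j hi hij
      induction j, hij using Nat.le_induction with
      | base => exact le_rfl
      | succ j _ ih => exact (hdec' j (by omega)).trans ih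
    refine ⟨min t M, min_le_right _ _, fun i j hij hj => up i j hij (hj.trans (min_le_left _ _)), ?_⟩
    intro i j hi hij hj
    rcases le_total t M with h | h
    · rw [min_eq_left h] at hi
      exact down i j hi hij
    · rw [min_eq_right h] at hi
      have : i = j := by omega
      rw [this]
  · push Not at hex
    refine ⟨M, le_rfl, fun i j hij _ => monotone_nat_of_le_succ hex hij, fun i j hi hij hj => ?_⟩
    have : i = j := by omega
    rw [this]

/-- Main theorem, for `b = k + 5`. -/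
theorem main (k : ℕ) : ∃ ε : ℝ, 0 < ε ∧ ∃ N : ℕ, ∀ lam : Fin (k + 5) → ℕ, Antitone lam →
    N ≤ lam 0 → (1 - ε) * (lam 0 : ℝ) < lam (Fin.last (k + 4)) →
    Unimodal (fun n => (F lam).coeff n) (∑ i, lam i) := by
  obtain ⟨c1, hc1, m1, hm1, H1⟩ := growth (k + 5) (by omega) (1/16) (by norm_num) (by norm_num)
  obtain ⟨c2, hc2, m2, hm2, H2⟩ := growth (k + 4) (by omega) (1/16) (by norm_num) (by norm_num)
  obtain ⟨C1, hC1, E1⟩ := error1 (k + 2)
  obtain ⟨C2, hC2, E2⟩ := error2 k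
  -- η
  obtain ⟨η, hη, hη1, hηb, hηC1, hηC2⟩ : ∃ η : ℝ, 0 < η ∧ η ≤ 1 ∧ (k + 5) * η ≤ 1 / 4 ∧
      C1 * η ≤ c1 / 2 ∧ C2 * η ≤ c2 := by
    refine ⟨min (min 1 (1 / (4 * (k + 5)))) (min (c1 / (2 * (C1 + 1))) (c2 / (C2 + 1))), ?_, ?_, ?_, ?_, ?_⟩
    · positivity
    · exact (min_le_left _ _).trans (min_le_left _ _)
    · have : min (min 1 (1 / (4 * ((k : ℝ) + 5)))) (min (c1 / (2 * (C1 + 1))) (c2 / (C2 + 1)))
          ≤ 1 / (4 * (k + 5)) := (min_le_left _ _).trans (min_le_right _ _)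
      calc ((k : ℝ) + 5) * _ ≤ (k + 5) * (1 / (4 * (k + 5))) :=
            mul_le_mul_of_nonneg_left this (by positivity)
        _ = 1 / 4 := by field_simp
    · have : min (min 1 (1 / (4 * ((k : ℝ) + 5)))) (min (c1 / (2 * (C1 + 1))) (c2 / (C2 + 1)))
          ≤ c1 / (2 * (C1 + 1)) := (min_le_right _ _).trans (min_le_left _ _)
      calc C1 * _ ≤ C1 * (c1 / (2 * (C1 + 1))) := mul_le_mul_of_nonneg_left this hC1
        _ ≤ (C1 + 1) * (c1 / (2 * (C1 + 1))) :=
            mul_le_mul_of_nonneg_right (by linarith) (by positivity)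
        _ = c1 / 2 := by field_simp
    · have : min (min 1 (1 / (4 * ((k : ℝ) + 5)))) (min (c1 / (2 * (C1 + 1))) (c2 / (C2 + 1)))
          ≤ c2 / (C2 + 1) := (min_le_right _ _).trans (min_le_right _ _)
      calc C2 * _ ≤ C2 * (c2 / (C2 + 1)) := mul_le_mul_of_nonneg_left this hC2
        _ ≤ (C2 + 1) * (c2 / (C2 + 1)) :=
            mul_le_mul_of_nonneg_right (by linarith) (by positivity)
        _ = c2 := by field_simp
  obtain ⟨m3, hm3⟩ := exists_nat_ge (2 * C1 / c1 + C2 / c2 + 64 * (k + 5))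
  refine ⟨η / 2, by positivity, 2 * (m1 + m2 + m3), fun lam hanti hN hlast => ?_⟩
  set m := lam (Fin.last (k + 4)) with hm
  set h := lam 0 - m with hh
  have hm0 : m ≤ lam 0 := hanti (Fin.zero_le _)
  have hlam0 : lam 0 = m + h := by omega
  have hlam0R : (lam 0 : ℝ) = m + h := by rw [hlam0]; push_cast; ring
  have hη2 : η / 2 ≤ 1 / 2 := by linarith
  have hl0 : (0 : ℝ) ≤ lam 0 := by positivity
  have hhalf : (lam 0 : ℝ) ≤ 2 * m := by nlinarith
  have hhη : (h : ℝ) ≤ η * m := by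
    rw [hlam0R] at hlast hhalf
    nlinarith
  have hhm : h ≤ m := by
    have h0 : (0 : ℝ) ≤ m := by positivity
    have : (h : ℝ) ≤ m := by nlinarith
    exact_mod_cast this
  have hmN : m1 + m2 + m3 ≤ m := by
    have : ((2 * (m1 + m2 + m3) : ℕ) : ℝ) ≤ 2 * m := le_trans (by exact_mod_cast hN) hhalf
    have : 2 * (m1 + m2 + m3) ≤ 2 * m := by exact_mod_cast this
    omega
  have hmm1 : m1 ≤ m := by omega
  have hmm2 : m2 ≤ m := by omega
  have hm1' : 1 ≤ m := by omega
  have hmR : (1 : ℝ) ≤ m := by exact_mod_cast hm1'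
  have hm3R : 2 * C1 / c1 + C2 / c2 + 64 * ((k : ℝ) + 5) ≤ m := by
    refine hm3.trans ?_
    exact_mod_cast (by omega : m3 ≤ m)
  have hq1 : 0 ≤ 2 * C1 / c1 := by positivity
  have hq2 : 0 ≤ C2 / c2 := by positivity
  have hk0 : (0 : ℝ) ≤ k := by positivity
  have hmb : 64 * ((k : ℝ) + 5) ≤ m := by linarith
  have hmC1 : C1 ≤ c1 * m / 2 := by
    have : 2 * C1 / c1 ≤ m := by linarith
    rw [div_le_iff₀ hc1] at this
    linarith
  have hmC2 : C2 ≤ c2 * m := by
    have : C2 / c2 ≤ m := by linarith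
    rw [div_le_iff₀ hc2] at this
    linarith
  have hgood : Good m h (k + 4) lam := by
    refine ⟨fun i => hanti (Fin.le_last i), fun i => ?_, rfl⟩
    rw [← hlam0]
    exact hanti (Fin.zero_le i)
  -- error bounds
  have err1 : C1 * (1 + h) * (m : ℝ) ^ (k + 2) ≤ c1 * (m : ℝ) ^ (k + 3) := by
    have : C1 * (1 + h) ≤ c1 * m := by
      have : C1 * h ≤ C1 * (η * m) := mul_le_mul_of_nonneg_left hhη hC1
      have : C1 * (η * m) ≤ c1 / 2 * m := by
        rw [← mul_assoc]; exact mul_le_mul_of_nonneg_right hηC1 (by linarith)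
      linarith
    calc C1 * (1 + h) * (m : ℝ) ^ (k + 2) ≤ c1 * m * (m : ℝ) ^ (k + 2) :=
          mul_le_mul_of_nonneg_right this (by positivity)
      _ = _ := by ring
  have err2 : C2 * (1 + h) * (m : ℝ) ^ (k + 1) ≤ 2 * (c2 * (m : ℝ) ^ (k + 2)) := by
    have : C2 * (1 + h) ≤ 2 * c2 * m := by
      have : C2 * h ≤ C2 * (η * m) := mul_le_mul_of_nonneg_left hhη hC2
      have : C2 * (η * m) ≤ c2 * m := by
        rw [← mul_assoc]; exact mul_le_mul_of_nonneg_right hηC2 (by linarith)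
      linarith
    calc C2 * (1 + h) * (m : ℝ) ^ (k + 1) ≤ 2 * c2 * m * (m : ℝ) ^ (k + 1) :=
          mul_le_mul_of_nonneg_right this (by positivity)
      _ = _ := by ring
  set f : ℕ := (k + 5).factorial with hf
  have hfpos : (0 : ℝ) < f := by
    rw [hf]; exact_mod_cast Nat.factorial_pos _
  -- first differences
  have D1 : ∀ n : ℕ, |(f : ℝ) * (((F lam).coeff (n + 1) : ℝ) - (F lam).coeff n)
      - G m (k + 5) (((n + 1 : ℕ) : ℤ) - (k + 5 : ℕ))| ≤ c1 * (m : ℝ) ^ (k + 3) := by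
    intro n
    have h1 : |((f : Polynomial ℝ) * ((1 - Polynomial.X) * A (k + 5) lam (lam 0))
        - (1 - Polynomial.X) * ps 1 m ^ (k + 5)).coeff (n + 1)| ≤ C1 * (1 + h) * (m : ℝ) ^ (k + 2) :=
      E1 m h hm1' hhm lam hgood (lam 0) hm0 (n + 1)
    rw [Polynomial.coeff_sub, ← Polynomial.C_eq_natCast,
      Polynomial.coeff_C_mul, coeff_one_sub_X_mul, coeff_A, coeff_A, coeff_d1] at h1
    exact h1.trans err1
  have D2 : ∀ n : ℕ, |(f : ℝ) * ((((F lam).coeff (n + 2) : ℝ) - (F lam).coeff (n + 1))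
      - ((F lam).coeff (n + 1) - (F lam).coeff n))
      - (G m (k + 4) (((n + 2 : ℕ) : ℤ) - ((k + 4 : ℕ) + 1)) - G m (k + 4) (((n + 2 : ℕ) : ℤ) - ((k + 4 : ℕ) + 1) - m))|
        ≤ 2 * (c2 * (m : ℝ) ^ (k + 2)) := by
    intro n
    have h1 := E2 m h hm1' hhm lam hgood (lam 0) hm0 (n + 2)
    have e : ((1 - Polynomial.X) ^ 2 * ps 1 m ^ (k + 5)).coeff (n + 2)
        = G m (k + 4) (((n + 2 : ℕ) : ℤ) - ((k + 4 : ℕ) + 1))
          - G m (k + 4) (((n + 2 : ℕ) : ℤ) - ((k + 4 : ℕ) + 1) - m) := coeff_d2 m (k + 4) n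
    rw [Polynomial.coeff_sub, ← Polynomial.C_eq_natCast,
      Polynomial.coeff_C_mul, coeff_one_sub_X_sq_mul, coeff_A, coeff_A, coeff_A, e] at h1
    exact h1.trans err2
  have hkm : 0 ≤ (k : ℝ) * m := by positivity
  set K1 : ℕ := ⌊(((k : ℝ) + 5) / 2 - 1 / 8) * m⌋₊ with hK1
  set K2 : ℕ := ⌈(((k : ℝ) + 5) / 2 + 1 / 8) * m⌉₊ with hK2
  have hcoef : (0 : ℝ) ≤ (((k : ℝ) + 5) / 2 - 1 / 8) := by linarith
  have hK1le : (K1 : ℝ) ≤ (((k : ℝ) + 5) / 2 - 1 / 8) * m := Nat.floor_le (by positivity)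
  have hK1lt : (((k : ℝ) + 5) / 2 - 1 / 8) * m < K1 + 1 := Nat.lt_floor_add_one _
  have hK2le : (((k : ℝ) + 5) / 2 + 1 / 8) * m ≤ K2 := Nat.le_ceil _
  have hK2lt : (K2 : ℝ) < (((k : ℝ) + 5) / 2 + 1 / 8) * m + 1 := Nat.ceil_lt_add_one (by positivity)
  apply unimodal_of _ _ K1 K2
  · -- increasing part
    intro n hn
    rcases le_or_gt (n + 1) (lam 0) with hn0 | hn0
    · exact coeff_mono_start lam hn0
    · have hnm : (m : ℝ) ≤ n := by
        have : m ≤ n := by omega
        exact_mod_cast this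
      have hnK : (n : ℝ) + 1 ≤ K1 := by exact_mod_cast hn
      have hg := H1 m hmm1 (((n + 1 : ℕ) : ℤ) - (k + 5 : ℕ)) (by push_cast; linarith)
        (by push_cast; linarith)
      have hd := D1 n
      rw [abs_le] at hd
      rw [show k + 5 - 2 = k + 3 by omega] at hg
      have : 0 ≤ (f : ℝ) * (((F lam).coeff (n + 1) : ℝ) - (F lam).coeff n) := by linarith [hd.1]
      have h2 := nonneg_of_mul_nonneg_right this hfpos
      have h3 : ((F lam).coeff n : ℝ) ≤ (F lam).coeff (n + 1) := by linarith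
      exact_mod_cast h3
  · -- concave part
    intro n hn1 hn2
    have hnK1 : (K1 : ℝ) ≤ n + 1 := by exact_mod_cast hn1
    have hnK2 : (n : ℝ) + 1 + 1 ≤ K2 := by exact_mod_cast hn2
    -- y1
    have hg1 := H2 m hmm2 (((k + 4 : ℕ) : ℤ) * ((m : ℤ) - 1) + 1 - (((n + 2 : ℕ) : ℤ) - ((k + 4 : ℕ) + 1)))
      (by push_cast; linarith) (by push_cast; linarith)
    rw [G_antisymm] at hg1
    have hg2 := H2 m hmm2 (((n + 2 : ℕ) : ℤ) - ((k + 4 : ℕ) + 1) - m)
      (by push_cast; linarith) (by push_cast; linarith)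
    have hd := D2 n
    rw [abs_le] at hd
    rw [show k + 4 - 2 = k + 2 by omega] at hg1 hg2
    have h0 : (f : ℝ) * ((((F lam).coeff (n + 2) : ℝ) - (F lam).coeff (n + 1))
      - ((F lam).coeff (n + 1) - (F lam).coeff n)) ≤ 0 := by linarith [hd.2]
    have h2 : ((((F lam).coeff (n + 2) : ℝ) - (F lam).coeff (n + 1))
      - ((F lam).coeff (n + 1) - (F lam).coeff n)) ≤ 0 := by
      by_contra hcon
      push Not at hcon
      have := mul_pos hfpos hcon
      linarith
    have h3 : (((F lam).coeff (n + 2) : ℝ) - (F lam).coeff (n + 1))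
      ≤ ((F lam).coeff (n + 1) - (F lam).coeff n) := by linarith
    exact_mod_cast h3
  · -- decreasing part
    intro n hn
    rcases le_or_gt (∑ i, lam i) (n + m) with hend | hend
    · exact coeff_anti_end lam hend
    · have hnK : (K2 : ℝ) ≤ n + 1 := by exact_mod_cast hn
      have hsum : ∑ i, lam i ≤ (k + 5) * (m + h) := by
        have := Finset.sum_le_card_nsmul (Finset.univ : Finset (Fin (k + 5))) lam (m + h)
          (fun i _ => hgood.2.1 i)
        simpa using this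
      have hnR : (n : ℝ) + m ≤ (k + 5) * (m + h) := by
        have : n + m ≤ (k + 5) * (m + h) := by omega
        exact_mod_cast this
      have hbh : ((k : ℝ) + 5) * h ≤ m / 4 := by
        calc ((k : ℝ) + 5) * h ≤ (k + 5) * (η * m) := mul_le_mul_of_nonneg_left hhη (by positivity)
          _ = ((k + 5) * η) * m := by ring
          _ ≤ 1 / 4 * m := mul_le_mul_of_nonneg_right hηb (by positivity)
          _ = m / 4 := by ring
      have hg := H1 m hmm1 (((k + 5 : ℕ) : ℤ) * ((m : ℤ) - 1) + 1 - (((n + 1 : ℕ) : ℤ) - (k + 5 : ℕ)))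
        (by push_cast; linarith) (by push_cast; linarith)
      rw [G_antisymm] at hg
      have hd := D1 n
      rw [abs_le] at hd
      rw [show k + 5 - 2 = k + 3 by omega] at hg
      have h0 : (f : ℝ) * (((F lam).coeff (n + 1) : ℝ) - (F lam).coeff n) ≤ 0 := by linarith [hd.2]
      have h2 : ((F lam).coeff (n + 1) : ℝ) - (F lam).coeff n ≤ 0 := by
        by_contra hcon
        push Not at hcon
        have := mul_pos hfpos hcon
        linarith
      have h3 : ((F lam).coeff (n + 1) : ℝ) ≤ (F lam).coeff n := by linarith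
      exact_mod_cast h3

/-- **MP_71be06_co, Q1 (full answer, positive).** For every `b ≥ 5` there are `ε > 0` and `N` such
that for every partition `lam` with exactly `b` distinct parts `lam_1 > ... > lam_b > 0`,
`lam_1 ≥ N` and `lam_b > (1 - ε) lam_1`, the polynomial `F_lam` is unimodal. -/
theorem result : ∀ b : ℕ, ∀ hb : 5 ≤ b, ∃ ε : ℝ, 0 < ε ∧ ∃ N : ℕ, ∀ lam : Fin b → ℕ,
    StrictAnti lam → (∀ i, 0 < lam i) → N ≤ lam ⟨0, by omega⟩ →
    (1 - ε) * (lam ⟨0, by omega⟩ : ℝ) < lam ⟨b - 1, by omega⟩ →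
    Unimodal (fun n => (F lam).coeff n) (∑ i, lam i) := by
  intro b hb
  obtain ⟨k, rfl⟩ : ∃ k, b = k + 5 := ⟨b - 5, by omega⟩
  obtain ⟨ε, hε, N, H⟩ := main k
  exact ⟨ε, hε, N, fun lam h1 _ h3 h4 => H lam h1.antitone h3 h4⟩

end Pool.Agent.Results.MP_71be06_co.NearRectangular
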